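import Pool.Agent.V1115.KL.Power

/-!
# Brauer characters versus class numbers of `p'`-subgroups: a counterexample

The group is the fibre product over `C_2` of `PΓL(2,9)` (with kernel `PGL(2,9)`) and the
extraspecial group `2^(1+6)`, of order 92160, with `p = 3`.
-/

namespace Pool.Agent.Results.MP_58d2c7_al.PGammaLCounterexample

/-- the number of conjugacy classes of `G` that consist of `p`-regular elements -/
noncomputable def regClasses (p : ℕ) (G : Type) [Group G] : ℕ :=
  Nat.card {c : ConjClasses G // ∃ g : G, ConjClasses.mk g = c ∧ ¬ p ∣ orderOf g}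

/-- The inequality fails for `p = 3`, and no constant multiple of the right-hand side bounds the
number of 3-regular classes. -/
theorem result :
    (¬ ∀ (G : Type) [Group G] [Finite G] (p : ℕ), p.Prime →
      ∃ H : Subgroup G, ¬ p ∣ Nat.card H ∧ regClasses p G ≤ Nat.card (ConjClasses H)) ∧
    (∀ C : ℕ, ∃ (G : Type) (_ : Group G) (_ : Finite G),
      ∀ H : Subgroup G, ¬ 3 ∣ Nat.card H → C * Nat.card (ConjClasses H) < regClasses 3 G) := by
  refine ⟨?_, Pool.Agent.V1115.KL.unbounded⟩
  intro h
  obtain ⟨H, hH, hle⟩ := h Pool.Agent.V1115.KL.G0 3 Nat.prime_three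
  have h1 := Pool.Agent.V1115.KL.kcl_sub H hH
  have h2 := Pool.Agent.V1115.KL.ell_G0
  have h3 : Pool.Agent.V1115.KL.ell 3 Pool.Agent.V1115.KL.G0 ≤ Pool.Agent.V1115.KL.kcl H := hle
  omega

end Pool.Agent.Results.MP_58d2c7_al.PGammaLCounterexample
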